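import Pool.Agent.Work.MP_db9399_cg_helper54.KMLB

/-! # SWG, block KMLN, first part: heads without exposed heads, abstract form (helper54) -/

set_option autoImplicit false
set_option linter.unusedSectionVars false

namespace Pool.Agent.Work.MP_db9399_sg.helper54

open Finset Classical
open Pool.Agent.Work.MP_db9399_all (nb pr DepOnI PackI Stmt_LLLI stmt_LLLI)
open Pool.Agent.Work.MP_db9399_px (avg Stmt_PBM)
open Pool.Agent.Work.MP_db9399_px.helper31 (pr_box)
open Pool.Agent.Work.MP_db9399_cg.helper54.KML (avg_add avg_sub avg_mul avg_sum avg_ind pr_false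
  avg_mono pr_mono pr_nonneg avg_sq pack_single pr_head pr_heads)

universe u

namespace KMLN

section heads
variable {V : Type u} [Fintype V] {M : ℕ} (Ex : V → Finset V)

/-- head without exposed heads -/
def good (f : V → Fin M) (x : V) : Prop :=
  (f x).val = 0 ∧ ∀ y ∈ Ex x, (f y).val ≠ 0

/-- number of good vertices of `A` -/
noncomputable def cnt (A : Finset V) (f : V → Fin M) : ℝ :=
  ∑ x ∈ A, if good Ex f x then 1 else 0

/-- the coins seen by `A` -/
noncomputable def QA (A : Finset V) : Finset V :=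
  A.biUnion fun x => insert x (Ex x)

variable {Ex}

lemma pr_good (hM : 0 < M) (x : V) (hx : x ∉ Ex x) :
    1 / (M : ℝ) - (Ex x).card / (M : ℝ) ^ 2 ≤ pr (fun f : V → Fin M => good Ex f x) := by
  have h1 : avg (fun f : V → Fin M => if (f x).val = 0 then (1 : ℝ) else 0) ≤
      avg (fun f : V → Fin M => (if good Ex f x then (1 : ℝ) else 0) +
        ∑ y ∈ Ex x, if (f x).val = 0 ∧ (f y).val = 0 then (1 : ℝ) else 0) := by
    refine avg_mono fun f => ?_
    have hs : 0 ≤ ∑ y ∈ Ex x, if (f x).val = 0 ∧ (f y).val = 0 then (1 : ℝ) else 0 :=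
      Finset.sum_nonneg fun y _ => by split_ifs <;> norm_num
    by_cases hx : (f x).val = 0
    · by_cases hg : good Ex f x
      · rw [if_pos hx, if_pos hg]
        linarith
      · rw [if_pos hx, if_neg hg]
        have h2 : ∃ y ∈ Ex x, (f y).val = 0 := by
          by_contra hcon
          push Not at hcon
          exact hg ⟨hx, hcon⟩
        obtain ⟨y, hy, hy0⟩ := h2
        have h3 := Finset.single_le_sum (f := fun y => if (f x).val = 0 ∧ (f y).val = 0
          then (1 : ℝ) else 0) (fun y _ => by split_ifs <;> norm_num) hy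
        simp only [hx, hy0, and_self, if_true] at h3
        simp only [hx]
        linarith
    · rw [if_neg hx]
      have h2 : (0 : ℝ) ≤ if good Ex f x then (1 : ℝ) else 0 := by split_ifs <;> norm_num
      linarith
  rw [avg_add, avg_ind, avg_ind, pr_head hM, avg_sum] at h1
  have h2 : ∀ y ∈ Ex x, avg (fun f : V → Fin M =>
      if (f x).val = 0 ∧ (f y).val = 0 then (1 : ℝ) else 0) = 1 / (M : ℝ) ^ 2 := by
    intro y hy
    rw [avg_ind, pr_heads hM x y (fun h => hx (h ▸ hy))]
  rw [Finset.sum_congr rfl h2, Finset.sum_const, nsmul_eq_mul] at h1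
  rw [mul_one_div] at h1
  linarith

lemma good_dep {f f' : V → Fin M} {x : V} (h : ∀ y ∈ insert x (Ex x), f y = f' y) :
    good Ex f x ↔ good Ex f' x := by
  unfold good
  rw [h x (mem_insert_self _ _)]
  refine and_congr Iff.rfl (forall₂_congr fun y hy => ?_)
  rw [h y (mem_insert_of_mem hy)]

lemma cnt_dep {A : Finset V} {f f' : V → Fin M} (h : ∀ y ∈ QA Ex A, f y = f' y) :
    cnt Ex A f = cnt Ex A f' := by
  unfold cnt
  refine Finset.sum_congr rfl fun x hx => ?_
  have h1 : good Ex f x ↔ good Ex f' x :=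
    good_dep fun y hy => h y (mem_biUnion.2 ⟨x, hx, hy⟩)
  simp only [h1]

/-- what is needed from the exposures -/
structure Exq (Ex : V → Finset V) (K : Finset V) (D : ℝ) : Prop where
  sub : ∀ x, Ex x ⊆ K
  irr : ∀ x, x ∉ Ex x
  sy : ∀ x ∈ K, ∀ y ∈ Ex x, x ∈ Ex y
  cd : ∀ x ∈ K, 1 + ((Ex x).card : ℝ) ≤ D

lemma ins_card {K : Finset V} {D : ℝ} (hE : Exq Ex K D) {x : V} (hx : x ∈ K) :
    ((insert x (Ex x)).card : ℝ) ≤ D := by
  refine le_trans ?_ (hE.cd x hx)
  have := card_insert_le x (Ex x)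
  have h : (insert x (Ex x)).card ≤ 1 + (Ex x).card := by omega
  exact_mod_cast h

lemma QA_sub {K A : Finset V} {D : ℝ} (hE : Exq Ex K D) (hA : A ⊆ K) : QA Ex A ⊆ K := by
  intro y hy
  obtain ⟨x, hx, hy⟩ := mem_biUnion.1 hy
  rcases mem_insert.1 hy with h | h
  · rw [h]; exact hA hx
  · exact hE.sub x h

lemma QA_mem {K A : Finset V} {D : ℝ} (hE : Exq Ex K D) (hA : A ⊆ K) {x y : V} (hx : x ∈ A)
    (hy : y ∈ insert x (Ex x)) : x ∈ insert y (Ex y) := by
  rcases mem_insert.1 hy with h | h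
  · rw [h]; exact mem_insert_self _ _
  · exact mem_insert_of_mem (hE.sy x (hA hx) y h)

lemma cnt_lip {K A : Finset V} {D : ℝ} (hE : Exq Ex K D) (hA : A ⊆ K) (y : V)
    (f f' : V → Fin M) (h : ∀ z, z ≠ y → f z = f' z) :
    |cnt Ex A f - cnt Ex A f'| ≤ if y ∈ QA Ex A then D else 0 := by
  by_cases hy : y ∈ QA Ex A
  · rw [if_pos hy]
    unfold cnt
    rw [← Finset.sum_sub_distrib]
    refine (Finset.abs_sum_le_sum_abs _ _).trans ?_
    have h1 : ∀ x ∈ A, |(if good Ex f x then (1 : ℝ) else 0) -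
        if good Ex f' x then (1 : ℝ) else 0| ≤ if x ∈ insert y (Ex y) then 1 else 0 := by
      intro x hx
      by_cases hxy : x ∈ insert y (Ex y)
      · rw [if_pos hxy]
        split_ifs <;> norm_num
      · rw [if_neg hxy]
        have h2 : good Ex f x ↔ good Ex f' x := by
          refine good_dep fun z hz => h z ?_
          rintro rfl
          exact hxy (QA_mem hE hA hx hz)
        simp only [h2, sub_self, abs_zero, le_refl]
    refine (Finset.sum_le_sum h1).trans ?_
    rw [Finset.sum_boole]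
    have h2 : ((A.filter fun x => x ∈ insert y (Ex y)).card : ℝ) ≤
        ((insert y (Ex y)).card : ℝ) := by
      exact_mod_cast card_le_card fun x hx => (mem_filter.1 hx).2
    exact h2.trans (ins_card hE (QA_sub hE hA hy))
  · rw [if_neg hy]
    have h1 : cnt Ex A f = cnt Ex A f' := cnt_dep fun z hz => h z fun hzy => hy (hzy ▸ hz)
    rw [h1, sub_self, abs_zero]

lemma QA_card {K A : Finset V} {D : ℝ} (hE : Exq Ex K D) (hA : A ⊆ K) :
    ((QA Ex A).card : ℝ) ≤ A.card * D := by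
  have h1 : ((QA Ex A).card : ℝ) ≤ ∑ x ∈ A, ((insert x (Ex x)).card : ℝ) := by
    exact_mod_cast card_biUnion_le
  refine h1.trans ?_
  rw [← nsmul_eq_mul]
  exact Finset.sum_le_card_nsmul _ _ _ fun x hx => ins_card hE (hA hx)

end heads

/-- the asymptotics -/
lemma asymA (B C : ℝ) (hB : 1 ≤ B) (_hC : 1 ≤ C) : ∃ d0 : ℕ, 4 ≤ d0 ∧ ∀ d : ℕ, d0 ≤ d →
    6 * Real.log d ≤ (d : ℝ) ^ (3 / 4 : ℝ) / (288 * B ^ 2) ∧ 16 * C ^ 3 ≤ (d : ℝ) := by
  have h1 := (isLittleO_log_rpow_atTop (show (0 : ℝ) < 3 / 4 by norm_num)).bound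
    (show (0 : ℝ) < 1 / (1728 * B ^ 2) by positivity)
  have h2 := (h1.and (Filter.eventually_ge_atTop (16 * C ^ 3 : ℝ)))
  obtain ⟨x0, hx0⟩ := Filter.eventually_atTop.1 h2
  refine ⟨max 4 ⌈x0⌉₊, le_max_left _ _, fun d hd => ?_⟩
  have h3 : x0 ≤ d := (Nat.le_ceil _).trans (by exact_mod_cast (le_max_right _ _).trans hd)
  have hd4 : (4 : ℝ) ≤ d := by exact_mod_cast (le_max_left _ _).trans hd
  obtain ⟨h4, h5⟩ := hx0 d h3
  rw [Real.norm_of_nonneg (Real.log_nonneg (by linarith)),
    Real.norm_of_nonneg (by positivity)] at h4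
  refine ⟨?_, h5⟩
  calc 6 * Real.log d ≤ 6 * (1 / (1728 * B ^ 2) * (d : ℝ) ^ (3 / 4 : ℝ)) := by linarith
    _ = _ := by
      field_simp
      norm_num

/-- Heads without exposed heads. -/
theorem headsG (B C : ℝ) (hB : 1 ≤ B) (hC : 1 ≤ C) :
    ∃ d0 : ℕ, ∀ {V ι : Type u} [Fintype V] [Fintype ι] (Ex : V → Finset V) (K : Finset V)
      (D : ℝ) (d : ℕ) (Av : ι → Finset V), d0 ≤ d → Exq Ex K D → 1 ≤ D →
      D ^ 3 ≤ (d : ℝ) ^ (3 / 20 : ℝ) → (∀ i, Av i ⊆ K) →
      (∀ i, ∀ x ∈ Av i, ((Ex x).card : ℝ) ≤ B) → (∀ i, (d : ℝ) ^ (9 / 10 : ℝ) ≤ ((Av i).card : ℝ)) →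
      (∀ i, ((Av i).card : ℝ) ≤ C * d) →
      (∀ x, ((univ.filter fun i => x ∈ Av i).card : ℝ) ≤ C ^ 2 * d) →
      ∃ Km : Finset V, Km ⊆ K ∧ (∀ v ∈ Km, ∀ w ∈ Km, w ∉ Ex v) ∧
        ∀ i, 1 / (12 * B) * ((Av i).card : ℝ) ≤ ((Av i ∩ Km).card : ℝ) := by
  obtain ⟨d0, hd0, has⟩ := asymA B C hB hC
  refine ⟨d0, ?_⟩
  intro V ι _ _ Ex K D d Av hd hE hD1 hD3 hAK hAB hA1 hA2 hmul
  have hd4 : (4 : ℝ) ≤ d := by exact_mod_cast hd0.trans hd
  obtain ⟨hlog, hCd⟩ := has d hd
  have hdp : (0 : ℝ) < d := by linarith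
  have hDd : D ≤ d := by
    have h1 : D ≤ D ^ 3 := by
      calc D = D ^ 1 := (pow_one D).symm
        _ ≤ D ^ 3 := pow_le_pow_right₀ hD1 (by norm_num)
    have h2 : (d : ℝ) ^ (3 / 20 : ℝ) ≤ (d : ℝ) ^ (1 : ℝ) :=
      Real.rpow_le_rpow_of_exponent_le (by linarith) (by norm_num)
    rw [Real.rpow_one] at h2
    linarith
  -- number of coins
  set M : ℕ := ⌈2 * B⌉₊ with hMdef
  have hM2 : 2 * B ≤ M := Nat.le_ceil _
  have hM3 : (M : ℝ) ≤ 3 * B := by
    have h1 : (M : ℝ) < 2 * B + 1 := Nat.ceil_lt_add_one (by positivity)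
    linarith
  have hM0' : (0 : ℝ) < M := by linarith
  have hM0 : 0 < M := by exact_mod_cast hM0'
  have hApos : ∀ i, (0 : ℝ) < (Av i).card := fun i =>
    lt_of_lt_of_le (Real.rpow_pos_of_pos hdp _) (hA1 i)
  -- the mean
  have hmean : ∀ i, ((Av i).card : ℝ) / (6 * B) ≤ avg (fun f : V → Fin M => cnt Ex (Av i) f) := by
    intro i
    have h1 : avg (fun f : V → Fin M => cnt Ex (Av i) f) =
        ∑ x ∈ Av i, pr (fun f : V → Fin M => good Ex f x) := by
      unfold cnt
      rw [avg_sum]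
      exact Finset.sum_congr rfl fun x _ => avg_ind _
    have h2 : ∀ x ∈ Av i, 1 / (6 * B) ≤ pr (fun f : V → Fin M => good Ex f x) := by
      intro x hx
      refine le_trans ?_ (pr_good hM0 x (hE.irr x))
      have h3 : ((Ex x).card : ℝ) ≤ B := hAB i x hx
      have h4 : ((Ex x).card : ℝ) / M ≤ 1 / 2 := by
        rw [div_le_iff₀ hM0']
        linarith
      have h5 : 1 / (M : ℝ) - (Ex x).card / (M : ℝ) ^ 2 =
          (1 - (Ex x).card / M) * (1 / (M : ℝ)) := by
        field_simp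
      have h6 : 1 / (3 * B) ≤ 1 / (M : ℝ) := one_div_le_one_div_of_le hM0' hM3
      rw [h5]
      calc 1 / (6 * B) = 1 / 2 * (1 / (3 * B)) := by
            field_simp
            norm_num
        _ ≤ (1 - (Ex x).card / M) * (1 / (M : ℝ)) := by
            refine mul_le_mul (by linarith) h6 (by positivity) (by linarith)
    rw [h1]
    refine le_trans ?_ (Finset.card_nsmul_le_sum _ _ _ h2)
    rw [nsmul_eq_mul, mul_one_div]
  -- failure
  set φ : ℝ := Real.exp (-(6 * Real.log d)) with hφ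
  have hφd : φ = (d : ℝ)⁻¹ ^ 6 := by
    rw [hφ, Real.exp_neg, mul_comm, Real.exp_mul, Real.exp_log hdp, inv_pow]
    norm_cast
  have hφ0 : 0 < φ := Real.exp_pos _
  have hfail : ∀ i, pr (fun f : V → Fin M =>
      ¬ (1 / (12 * B) * ((Av i).card : ℝ) ≤ cnt Ex (Av i) f)) ≤ 2 * φ := by
    intro i
    have hAi := hApos i
    have hs0 : 0 < ((Av i).card : ℝ) * D ^ 3 := by positivity
    have h1 := Pool.Agent.Work.MP_db9399_px.helper31.stmt_PBM (J := V) M
      (fun f => cnt Ex (Av i) f) (fun y => if y ∈ QA Ex (Av i) then D else 0)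
      (((Av i).card : ℝ) * D ^ 3) (((Av i).card : ℝ) / (12 * B)) hM0 (cnt_lip hE (hAK i)) (by
        have h2 : ∑ y, (if y ∈ QA Ex (Av i) then D else 0) ^ 2 =
            ((QA Ex (Av i)).card : ℝ) * D ^ 2 := by
          have h3 : ∀ y, (if y ∈ QA Ex (Av i) then D else 0) ^ 2 =
              if y ∈ QA Ex (Av i) then D ^ 2 else 0 := by
            intro y
            split_ifs <;> ring
          simp_rw [h3]
          rw [Finset.sum_ite_mem, Finset.univ_inter, Finset.sum_const, nsmul_eq_mul]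
        rw [h2]
        have h3 := QA_card hE (hAK i)
        calc ((QA Ex (Av i)).card : ℝ) * D ^ 2 ≤ ((Av i).card * D) * D ^ 2 :=
              mul_le_mul_of_nonneg_right h3 (by positivity)
          _ = _ := by ring) hs0 (by positivity)
    have h5 : 2 * Real.exp (-(((Av i).card : ℝ) / (12 * B)) ^ 2 /
        (2 * (((Av i).card : ℝ) * D ^ 3))) ≤ 2 * φ := by
      refine mul_le_mul_of_nonneg_left (Real.exp_le_exp.2 ?_) (by norm_num)
      rw [neg_div, neg_le_neg_iff]
      refine hlog.trans ?_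
      have e1 : (((Av i).card : ℝ) / (12 * B)) ^ 2 / (2 * (((Av i).card : ℝ) * D ^ 3))
          = ((Av i).card : ℝ) / (288 * B ^ 2 * D ^ 3) := by
        field_simp
        norm_num
      rw [e1, div_le_div_iff₀ (by positivity) (by positivity)]
      have e2 : (d : ℝ) ^ (3 / 4 : ℝ) * D ^ 3 ≤ ((Av i).card : ℝ) := by
        refine le_trans (mul_le_mul_of_nonneg_left hD3 (by positivity)) ?_
        rw [← Real.rpow_add hdp]
        refine le_trans (le_of_eq ?_) (hA1 i)
        norm_num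
      calc (d : ℝ) ^ (3 / 4 : ℝ) * (288 * B ^ 2 * D ^ 3)
          = 288 * B ^ 2 * ((d : ℝ) ^ (3 / 4 : ℝ) * D ^ 3) := by ring
        _ ≤ 288 * B ^ 2 * ((Av i).card : ℝ) := by gcongr
        _ = _ := by ring
    refine (pr_mono fun f hf => ?_).trans (h1.trans h5)
    rw [not_le] at hf
    have h3 := hmean i
    have h4 := neg_abs_le (cnt Ex (Av i) f - avg (fun f : V → Fin M => cnt Ex (Av i) f))
    have h6 : ((Av i).card : ℝ) / (6 * B) = ((Av i).card : ℝ) / (12 * B) +
        ((Av i).card : ℝ) / (12 * B) := by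
      field_simp
      norm_num
    have h7 : 1 / (12 * B) * ((Av i).card : ℝ) = ((Av i).card : ℝ) / (12 * B) := by ring
    linarith
  have he2 : Real.exp 2 ≤ 8 := by
    have : Real.exp 2 = Real.exp 1 * Real.exp 1 := by rw [← Real.exp_add]; norm_num
    have h1 := Real.exp_one_lt_d9
    have h2 := Real.exp_pos 1
    nlinarith
  have hCD : 4 ≤ C * d * D := by
    calc (4 : ℝ) ≤ 1 * d * 1 := by linarith
      _ ≤ C * d * D := by gcongr
  obtain ⟨f, hf⟩ := stmt_LLLI V M ι (1 / (C * d * D)) (fun i => QA Ex (Av i))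
    (fun _ => 2 * φ * Real.exp 2)
    (fun i f => 1 / (12 * B) * ((Av i).card : ℝ) ≤ cnt Ex (Av i) f) hM0 (by positivity)
    (one_div_le_one_div_of_le (by norm_num) hCD)
    (fun i => pack_single _ _ _ _ (QA Ex (Av i)) (Finset.Subset.refl _)
      (fun f f' h => by simp only [cnt_dep h]) (by
        refine mul_le_mul (hfail i) (Real.exp_le_exp.2 ?_) (Real.exp_pos _).le (by positivity)
        have h3 : ((QA Ex (Av i)).card : ℝ) ≤ C * d * D :=
          (QA_card hE (hAK i)).trans (mul_le_mul_of_nonneg_right (hA2 i) (by linarith))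
        rw [mul_one_div, div_mul_eq_mul_div, div_le_iff₀ (by positivity)]
        linarith) (by positivity) (fun hQ0 f => by
        exfalso
        have h1 := hApos i
        have h2 : (0 : ℕ) < (Av i).card := by exact_mod_cast h1
        obtain ⟨x, hx⟩ := Finset.card_pos.1 h2
        have h3 : x ∈ QA Ex (Av i) := mem_biUnion.2 ⟨x, hx, mem_insert_self _ _⟩
        rw [hQ0] at h3
        exact absurd h3 (Finset.notMem_empty _))) (fun y => by
      rw [Finset.sum_const, nsmul_eq_mul]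
      have h1 : ((univ.filter fun i => y ∈ QA Ex (Av i)).card : ℝ) ≤ D * (C ^ 2 * d) := by
        by_cases hyK : y ∈ K
        · have h2 : (univ.filter fun i => y ∈ QA Ex (Av i)) ⊆
              (insert y (Ex y)).biUnion fun x => univ.filter fun i => x ∈ Av i := by
            intro i hi
            obtain ⟨x, hx, hy⟩ := mem_biUnion.1 (mem_filter.1 hi).2
            exact mem_biUnion.2 ⟨x, QA_mem hE (hAK i) hx hy, mem_filter.2 ⟨mem_univ _, hx⟩⟩
          have h3 : ((univ.filter fun i => y ∈ QA Ex (Av i)).card : ℝ) ≤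
              ∑ x ∈ insert y (Ex y), ((univ.filter fun i => x ∈ Av i).card : ℝ) := by
            exact_mod_cast (card_le_card h2).trans card_biUnion_le
          refine h3.trans ?_
          refine (Finset.sum_le_card_nsmul _ _ _ fun x _ => hmul x).trans ?_
          rw [nsmul_eq_mul]
          exact mul_le_mul_of_nonneg_right (ins_card hE hyK) (by positivity)
        · have h2 : (univ.filter fun i => y ∈ QA Ex (Av i)) = ∅ := by
            refine Finset.filter_eq_empty_iff.2 fun i _ hy => hyK (QA_sub hE (hAK i) hy)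
          rw [h2, card_empty, Nat.cast_zero]
          positivity
      calc ((univ.filter fun i => y ∈ QA Ex (Av i)).card : ℝ) * (2 * φ * Real.exp 2)
          ≤ D * (C ^ 2 * d) * (2 * φ * 8) := by gcongr
        _ ≤ 1 / (C * d * D) := by
            rw [le_div_iff₀ (by positivity), hφd]
            calc D * (C ^ 2 * d) * (2 * (d : ℝ)⁻¹ ^ 6 * 8) * (C * d * D)
                = 16 * C ^ 3 * (D * D * d ^ 2 * (d : ℝ)⁻¹ ^ 6) := by ring
              _ ≤ d * (d * d * d ^ 2 * (d : ℝ)⁻¹ ^ 6) := by gcongr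
              _ = 1 / d := by
                  field_simp
              _ ≤ 1 := by
                  rw [div_le_one hdp]
                  linarith)
  refine ⟨K.filter fun x => good Ex f x, filter_subset _ _, ?_, ?_⟩
  · intro v hv w hw hvw
    obtain ⟨hvK, hgv⟩ := mem_filter.1 hv
    obtain ⟨hwK, hgw⟩ := mem_filter.1 hw
    exact hgv.2 w hvw hgw.1
  · intro i
    refine (hf i).trans ?_
    unfold cnt
    rw [Finset.sum_boole]
    have h1 : (Av i).filter (fun x => good Ex f x) ⊆ Av i ∩ K.filter fun x => good Ex f x := by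
      intro x hx
      obtain ⟨h2, h3⟩ := mem_filter.1 hx
      exact mem_inter.2 ⟨h2, mem_filter.2 ⟨hAK i h2, h3⟩⟩
    exact_mod_cast card_le_card h1

end KMLN

end Pool.Agent.Work.MP_db9399_sg.helper54
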