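import Pool.Agent.Work.MP_db9399_sg.Interface
import Pool.Agent.Work.MP_db9399_sg_helper54.KMLNA

/-! # SWG, block KMLN: the set `Km` and the labels, all classes at once (helper54) -/

set_option autoImplicit false
set_option linter.unusedSectionVars false

namespace Pool.Agent.Work.MP_db9399_sg.helper54

open Finset Classical
open Pool.Agent.Work.MP_db9399_all (nb pr DepOnI PackI Stmt_LLLI stmt_LLLI)
open Pool.Agent.Work.MP_db9399_px (avg Stmt_PBM)
open Pool.Agent.Work.MP_db9399_cg (cdg pk sx sp)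
open Pool.Agent.Work.MP_db9399_cg.helper54.KML (avg_add avg_sub avg_mul avg_sum avg_ind pr_false
  avg_mono pr_mono pr_nonneg avg_sq pack_single LJ LJ.mk sg sg_abs avg_lin_sq)

universe u

namespace KMLN

section labels
variable {V : Type u} [Fintype V] {P : ℕ}

/-- the deviation of one colour -/
noncomputable def zz (T : Fin P → Finset V) (w : V → ℝ) (f : LJ V P → Fin 2) (b : Fin P) : ℝ :=
  ∑ x ∈ T b, w x * sg f (LJ.mk x b)

/-- sum of the absolute values -/
noncomputable def F1 (T : Fin P → Finset V) (B : Finset (Fin P)) (w : V → ℝ)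
    (f : LJ V P → Fin 2) : ℝ := ∑ b ∈ B, |zz T w f b|

/-- sum of the squares -/
noncomputable def F2 (T : Fin P → Finset V) (B : Finset (Fin P)) (w : V → ℝ)
    (f : LJ V P → Fin 2) : ℝ := ∑ b ∈ B, zz T w f b ^ 2

/-- the variance -/
noncomputable def vv (T : Fin P → Finset V) (B : Finset (Fin P)) (w : V → ℝ) : ℝ :=
  ∑ b ∈ B, ∑ x ∈ T b, w x ^ 2

lemma vv_eq (T : Fin P → Finset V) (B : Finset (Fin P)) (w : V → ℝ) :
    vv T B w = ∑ x, w x ^ 2 * ((B.filter fun b => x ∈ T b).card : ℝ) := by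
  unfold vv
  have h1 : ∀ b, ∑ x ∈ T b, w x ^ 2 = ∑ x, if x ∈ T b then w x ^ 2 else 0 := by
    intro b
    rw [Finset.sum_ite_mem, Finset.univ_inter]
  simp_rw [h1]
  rw [Finset.sum_comm]
  refine Finset.sum_congr rfl fun x _ => ?_
  rw [← Finset.sum_filter, Finset.sum_const, nsmul_eq_mul, mul_comm]

lemma avg_F2 (T : Fin P → Finset V) (B : Finset (Fin P)) (w : V → ℝ) :
    avg (F2 T B w) = vv T B w := by
  have h : F2 T B w = fun f => ∑ b ∈ B, (fun f => zz T w f b ^ 2) f := rfl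
  rw [h, avg_sum]
  unfold vv
  refine Finset.sum_congr rfl fun b _ => ?_
  exact avg_lin_sq (T b) w (fun x => LJ.mk x b) fun x _ y _ h => (Prod.mk.inj h).1

lemma avg_F1 (T : Fin P → Finset V) (B : Finset (Fin P)) (w : V → ℝ) :
    (avg (F1 T B w)) ^ 2 ≤ P * vv T B w := by
  refine (avg_sq _).trans ?_
  have h1 : ∀ f, F1 T B w f ^ 2 ≤ P * F2 T B w f := by
    intro f
    have h := sq_sum_le_card_mul_sum_sq (s := B) (f := fun b => |zz T w f b|)
    simp only [sq_abs] at h
    refine h.trans (mul_le_mul_of_nonneg_right ?_ (Finset.sum_nonneg fun b _ => sq_nonneg _))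
    have h2 := card_le_univ B
    rw [Fintype.card_fin] at h2
    exact_mod_cast h2
  refine (avg_mono h1).trans (le_of_eq ?_)
  rw [avg_mul, avg_F2]

lemma zz_diff (T : Fin P → Finset V) (w : V → ℝ) (hw : ∀ x, 0 ≤ w x) (y : LJ V P)
    (f f' : LJ V P → Fin 2) (h : ∀ z, z ≠ y → f z = f' z) (b : Fin P) :
    |zz T w f b - zz T w f' b| ≤ if b = y.2 then (if y.1 ∈ T y.2 then 2 * w y.1 else 0) else 0 := by
  unfold zz
  rw [← Finset.sum_sub_distrib]
  have h1 : ∀ x, |w x * sg f (LJ.mk x b) - w x * sg f' (LJ.mk x b)| ≤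
      if LJ.mk x b = y then 2 * w y.1 else 0 := by
    intro x
    split_ifs with hy
    · rw [← mul_sub, abs_mul, abs_of_nonneg (hw x)]
      have h2 : |sg f (LJ.mk x b) - sg f' (LJ.mk x b)| ≤ 2 := by
        refine (abs_sub _ _).trans ?_
        rw [sg_abs, sg_abs]
        norm_num
      have h3 : y.1 = x := by
        rw [← hy]
        rfl
      rw [h3]
      nlinarith [hw x]
    · have h2 : sg f (LJ.mk x b) = sg f' (LJ.mk x b) := by
        unfold sg
        rw [h _ hy]
      rw [h2, sub_self, abs_zero]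
  refine (Finset.abs_sum_le_sum_abs _ _).trans ((Finset.sum_le_sum fun x _ => h1 x).trans ?_)
  by_cases hb : b = y.2
  · rw [if_pos hb]
    subst hb
    have h3 : ∀ x, (LJ.mk x y.2 = y) ↔ x = y.1 := by
      intro x
      constructor
      · intro h
        rw [← h]
        rfl
      · rintro rfl
        rfl
    simp_rw [h3]
    rw [Finset.sum_ite_eq']
  · rw [if_neg hb]
    refine le_of_eq (Finset.sum_eq_zero fun x _ => if_neg ?_)
    intro h
    exact hb (by
      rw [← h]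
      rfl)

lemma lip_F1 (T : Fin P → Finset V) (B : Finset (Fin P)) (w : V → ℝ) (hw : ∀ x, 0 ≤ w x)
    (y : LJ V P) (f f' : LJ V P → Fin 2) (h : ∀ z, z ≠ y → f z = f' z) :
    |F1 T B w f - F1 T B w f'| ≤ if y.2 ∈ B ∧ y.1 ∈ T y.2 then 2 * w y.1 else 0 := by
  unfold F1
  rw [← Finset.sum_sub_distrib]
  calc |∑ b ∈ B, (|zz T w f b| - |zz T w f' b|)|
      ≤ ∑ b ∈ B, |(|zz T w f b| - |zz T w f' b|)| := Finset.abs_sum_le_sum_abs _ _
    _ ≤ ∑ b ∈ B, |zz T w f b - zz T w f' b| :=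
        Finset.sum_le_sum fun b _ => abs_abs_sub_abs_le_abs_sub _ _
    _ ≤ ∑ b ∈ B, (if b = y.2 then (if y.1 ∈ T y.2 then 2 * w y.1 else 0) else 0) :=
        Finset.sum_le_sum fun b _ => zz_diff T w hw y f f' h b
    _ ≤ _ := by
        rw [Finset.sum_ite_eq']
        by_cases h1 : y.2 ∈ B <;> by_cases h2 : y.1 ∈ T y.2 <;> simp [h1, h2]

lemma zz_abs (T : Fin P → Finset V) (w : V → ℝ) (hw : ∀ x, 0 ≤ w x) (f : LJ V P → Fin 2)
    (b : Fin P) : |zz T w f b| ≤ ∑ x ∈ T b, w x := by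
  unfold zz
  refine (Finset.abs_sum_le_sum_abs _ _).trans (Finset.sum_le_sum fun x _ => ?_)
  rw [abs_mul, sg_abs, mul_one, abs_of_nonneg (hw x)]

lemma lip_F2 (T : Fin P → Finset V) (B : Finset (Fin P)) (w : V → ℝ) (hw : ∀ x, 0 ≤ w x)
    (κ : ℝ) (hκ : ∀ b ∈ B, ∑ x ∈ T b, w x ≤ κ)
    (y : LJ V P) (f f' : LJ V P → Fin 2) (h : ∀ z, z ≠ y → f z = f' z) :
    |F2 T B w f - F2 T B w f'| ≤ if y.2 ∈ B ∧ y.1 ∈ T y.2 then 4 * κ * w y.1 else 0 := by
  unfold F2
  rw [← Finset.sum_sub_distrib]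
  have h1 : ∀ b ∈ B, |zz T w f b ^ 2 - zz T w f' b ^ 2| ≤
      if b = y.2 then (if y.1 ∈ T y.2 then 4 * κ * w y.1 else 0) else 0 := by
    intro b hb
    have e1 : zz T w f b ^ 2 - zz T w f' b ^ 2 =
        (zz T w f b + zz T w f' b) * (zz T w f b - zz T w f' b) := by ring
    have e2 : |zz T w f b + zz T w f' b| ≤ 2 * κ := by
      refine (abs_add_le _ _).trans ?_
      have := zz_abs T w hw f b
      have := zz_abs T w hw f' b
      have := hκ b hb
      linarith
    have e3 := zz_diff T w hw y f f' h b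
    rw [e1, abs_mul]
    have hκ0 : 0 ≤ 2 * κ := (abs_nonneg _).trans e2
    refine (mul_le_mul e2 e3 (abs_nonneg _) hκ0).trans (le_of_eq ?_)
    split_ifs <;> ring
  refine (Finset.abs_sum_le_sum_abs _ _).trans ((Finset.sum_le_sum h1).trans ?_)
  rw [Finset.sum_ite_eq']
  by_cases h1 : y.2 ∈ B <;> by_cases h2 : y.1 ∈ T y.2 <;> simp [h1, h2]

lemma sum_c2 (T : Fin P → Finset V) (B : Finset (Fin P)) (w : V → ℝ) (α : ℝ) :
    ∑ y : LJ V P, (if y.2 ∈ B ∧ y.1 ∈ T y.2 then α * w y.1 else 0) ^ 2 = α ^ 2 * vv T B w := by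
  refine (Fintype.sum_prod_type_right (fun y : V × Fin P =>
    (if y.2 ∈ B ∧ y.1 ∈ T y.2 then α * w y.1 else 0) ^ 2)).trans ?_
  unfold vv
  rw [Finset.mul_sum]
  simp only
  have h0 : ∑ b ∈ B, α ^ 2 * ∑ x ∈ T b, w x ^ 2 =
      ∑ b, if b ∈ B then α ^ 2 * ∑ x ∈ T b, w x ^ 2 else 0 := by
    rw [Finset.sum_ite_mem, Finset.univ_inter]
  rw [h0]
  refine Finset.sum_congr rfl fun b _ => ?_
  by_cases hb : b ∈ B
  · rw [if_pos hb]
    have h1 : ∀ x, (if b ∈ B ∧ x ∈ T b then α * w x else 0) ^ 2 =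
        if x ∈ T b then α ^ 2 * w x ^ 2 else 0 := by
      intro x
      by_cases hx : x ∈ T b
      · simp only [hb, hx, and_self, if_true]
        ring
      · simp [hx]
    simp_rw [h1]
    rw [Finset.sum_ite_mem, Finset.univ_inter, Finset.mul_sum]
  · rw [if_neg hb]
    simp [hb]

/-- the coordinates seen by the test `w` -/
noncomputable def QQ (T : Fin P → Finset V) (B : Finset (Fin P)) (w : V → ℝ) : Finset (LJ V P) :=
  univ.filter fun y => w y.1 ≠ 0 ∧ y.2 ∈ B ∧ y.1 ∈ T y.2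

lemma zz_dep (T : Fin P → Finset V) (B : Finset (Fin P)) (w : V → ℝ) (f f' : LJ V P → Fin 2)
    (h : ∀ y ∈ QQ T B w, f y = f' y) (b : Fin P) (hb : b ∈ B) : zz T w f b = zz T w f' b := by
  unfold zz
  refine Finset.sum_congr rfl fun x hx => ?_
  by_cases hw : w x = 0
  · rw [hw, zero_mul, zero_mul]
  · have h1 : LJ.mk x b ∈ QQ T B w := mem_filter.2 ⟨mem_univ _, hw, hb, hx⟩
    unfold sg
    rw [h _ h1]

lemma QQ_card (T : Fin P → Finset V) (B : Finset (Fin P)) (w : V → ℝ) (t : ℝ)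
    (ht : ∀ x, ((univ.filter fun b => x ∈ T b).card : ℝ) ≤ t) :
    ((QQ T B w).card : ℝ) ≤ ((univ.filter fun x => w x ≠ 0).card : ℝ) * t := by
  have h1 : ((QQ T B w).card : ℝ) = ∑ x, ∑ b, if w x ≠ 0 ∧ b ∈ B ∧ x ∈ T b then (1 : ℝ) else 0 := by
    unfold QQ
    rw [← Finset.sum_boole]
    exact Fintype.sum_prod_type (fun y : V × Fin P =>
      if w y.1 ≠ 0 ∧ y.2 ∈ B ∧ y.1 ∈ T y.2 then (1 : ℝ) else 0)
  rw [h1, ← Finset.sum_boole, Finset.sum_mul]
  refine Finset.sum_le_sum fun x _ => ?_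
  by_cases hw : w x = 0
  · simp [hw]
  · simp only [ne_eq, hw, not_false_eq_true, true_and, if_true, one_mul]
    rw [Finset.sum_boole]
    refine le_trans ?_ (ht x)
    exact_mod_cast card_le_card fun b hb => by
      rw [mem_filter] at hb ⊢
      exact ⟨hb.1, hb.2.2⟩

/-- the asymptotics -/
lemma asymB (a : ℝ) (ha : 0 < a) (ha1 : a ≤ 1 / 100) : ∃ d0 : ℕ, 1 ≤ d0 ∧ ∀ d : ℕ, d0 ≤ d →
    Real.log d ≤ (d : ℝ) ^ (a / 20) ∧ 4 * (d : ℝ) ^ (a / 20) + 5 ≤ Real.sqrt d := by
  have h1 := (isLittleO_log_rpow_atTop (show (0 : ℝ) < a / 20 by positivity)).bound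
    (show (0 : ℝ) < 1 by norm_num)
  have h2 := (tendsto_rpow_atTop (show (0 : ℝ) < 1 / 2 - a / 20 by linarith)).eventually_ge_atTop 8
  have h3 := (h1.and h2).and (Filter.eventually_ge_atTop (100 : ℝ))
  obtain ⟨x0, hx0⟩ := Filter.eventually_atTop.1 h3
  refine ⟨max 1 ⌈x0⌉₊, le_max_left _ _, fun d hd => ?_⟩
  have h4 : x0 ≤ d := (Nat.le_ceil _).trans (by exact_mod_cast (le_max_right _ _).trans hd)
  obtain ⟨⟨h5, h6⟩, h7⟩ := hx0 d h4
  rw [Real.norm_of_nonneg (Real.log_nonneg (by linarith)),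
    Real.norm_of_nonneg (by positivity)] at h5
  refine ⟨by linarith, ?_⟩
  have h8 : 10 ≤ Real.sqrt d := Real.le_sqrt_of_sq_le (by linarith)
  have h9 : Real.sqrt d = (d : ℝ) ^ (a / 20) * (d : ℝ) ^ (1 / 2 - a / 20) := by
    rw [Real.sqrt_eq_rpow, ← Real.rpow_add (by linarith)]
    congr 1
    ring
  have h10 : (d : ℝ) ^ (a / 20) * 8 ≤ Real.sqrt d := by
    rw [h9]
    exact mul_le_mul_of_nonneg_left h6 (by positivity)
  linarith

/-- the labels -/
theorem labelsG (a ε : ℝ) (ha : 0 < a) (ha1 : a ≤ 1 / 100) (hε : 0 < ε) :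
    ∃ (e : ℝ) (d0 : ℕ), 0 < e ∧
    ∀ {V τ : Type u} [Fintype V] [Fintype τ] (d P : ℕ) (T : Fin P → Finset V)
      (B : τ → Finset (Fin P)) (w : τ → V → ℝ), d0 ≤ d → P ≤ 2 * d →
      (∀ x, ((univ.filter fun b => x ∈ T b).card : ℝ) ≤ sp d a) →
      (∀ t x, 0 ≤ w t x) → (∀ t, ((univ.filter fun x => w t x ≠ 0).card : ℝ) ≤ sx d a) →
      (∀ x, ((univ.filter fun t => w t x ≠ 0).card : ℝ) ≤ sx d a) →
      (∀ t, vv T (B t) (w t) ≤ e / d) →
      (∀ t, ∀ b ∈ B t, ∑ x ∈ T b, w t x ≤ (d : ℝ) ^ (-(3 / 4) : ℝ)) →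
      ∃ f : LJ V P → Fin 2, ∀ t, F1 T (B t) (w t) f ≤ ε ∧ F2 T (B t) (w t) f ≤ 2 * (ε / d) := by
  obtain ⟨d0, hd0, has⟩ := asymB a ha ha1
  refine ⟨min (ε ^ 2 / 32) ε, d0, by positivity, ?_⟩
  set e := min (ε ^ 2 / 32) ε with he
  have he1 : e ≤ ε ^ 2 / 32 := min_le_left _ _
  have he2 : e ≤ ε := min_le_right _ _
  have he0 : 0 < e := by positivity
  intro V τ _ _ d P T B w hd hP ht1 hw0 hsupp hmult hvv hκ
  obtain ⟨hlogd, hLs⟩ := has d hd
  have hd1 : (1 : ℝ) ≤ d := by exact_mod_cast hd0.trans hd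
  have hdp : (0 : ℝ) < d := by linarith
  set L : ℝ := (d : ℝ) ^ (a / 20) with hL
  have hL1 : 1 ≤ L := Real.one_le_rpow hd1 (by positivity)
  set s := Real.sqrt d with hs
  have hs1 : 9 ≤ s := by linarith
  have hss : s * s = d := Real.mul_self_sqrt hdp.le
  have hsd : s ≤ d := by nlinarith
  have hsp : sp d a ≤ Real.exp L := by
    unfold sp
    rw [Real.rpow_def_of_pos hdp]
    refine Real.exp_le_exp.2 ?_
    have h1 : 0 ≤ Real.log d := Real.log_nonneg (by linarith)
    nlinarith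
  have hP2 : (P : ℝ) ≤ 2 * d := by exact_mod_cast hP
  -- the means
  have hmean1 : ∀ t, avg (F1 T (B t) (w t)) ≤ ε / 4 := by
    intro t
    have h1 := avg_F1 T (B t) (w t)
    have h2 : (P : ℝ) * vv T (B t) (w t) ≤ (ε / 4) ^ 2 := by
      calc (P : ℝ) * vv T (B t) (w t) ≤ P * (e / d) :=
            mul_le_mul_of_nonneg_left (hvv t) (Nat.cast_nonneg _)
        _ ≤ 2 * d * (e / d) := mul_le_mul_of_nonneg_right hP2 (by positivity)
        _ = 2 * e := by
            field_simp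
        _ ≤ 2 * (ε ^ 2 / 32) := by linarith
        _ = (ε / 4) ^ 2 := by ring
    exact (le_abs_self _).trans (abs_le_of_sq_le_sq (h1.trans h2) (by positivity))
  have hmean2 : ∀ t, avg (F2 T (B t) (w t)) ≤ ε / d := by
    intro t
    rw [avg_F2]
    exact (hvv t).trans (div_le_div_of_nonneg_right he2 hdp.le)
  -- the failures
  have hfail1 : ∀ t, pr (fun f : LJ V P → Fin 2 => ¬ F1 T (B t) (w t) f ≤ ε) ≤
      2 * Real.exp (-s) := by
    intro t
    have h1 := Pool.Agent.Work.MP_db9399_px.helper31.stmt_PBM (J := LJ V P) 2 (F1 T (B t) (w t))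
      (fun y => if y.2 ∈ B t ∧ y.1 ∈ T y.2 then 2 * w t y.1 else 0) (4 * (ε ^ 2 / 32 / d)) (ε / 2)
      (by norm_num) (lip_F1 T (B t) (w t) (hw0 t)) (by
        rw [sum_c2]
        have h2 : vv T (B t) (w t) ≤ ε ^ 2 / 32 / d :=
          (hvv t).trans (div_le_div_of_nonneg_right he1 hdp.le)
        calc (2 : ℝ) ^ 2 * vv T (B t) (w t) ≤ 2 ^ 2 * (ε ^ 2 / 32 / d) :=
              mul_le_mul_of_nonneg_left h2 (by norm_num)
          _ = _ := by ring) (by positivity) (by positivity)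
    have h2 : -(ε / 2) ^ 2 / (2 * (4 * (ε ^ 2 / 32 / d))) = -d := by
      field_simp
      norm_num
    rw [h2] at h1
    have h5 : 2 * Real.exp (-(d : ℝ)) ≤ 2 * Real.exp (-s) :=
      mul_le_mul_of_nonneg_left (Real.exp_le_exp.2 (by linarith)) (by norm_num)
    refine (pr_mono fun f hf => ?_).trans (h1.trans h5)
    have h3 := hmean1 t
    rw [not_le] at hf
    have h4 := le_abs_self (F1 T (B t) (w t) f - avg (F1 T (B t) (w t)))
    linarith
  set κ : ℝ := (d : ℝ) ^ (-(3 / 4) : ℝ) with hκd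
  have hκ0 : 0 < κ := Real.rpow_pos_of_pos hdp _
  have hκ2 : κ ^ 2 * (d * s) = 1 := by
    rw [hκd, hs, Real.sqrt_eq_rpow, ← Real.rpow_natCast, ← Real.rpow_mul hdp.le]
    nth_rewrite 2 [← Real.rpow_one (d : ℝ)]
    rw [← Real.rpow_add hdp, ← Real.rpow_add hdp]
    norm_num
  have hfail2 : ∀ t, pr (fun f : LJ V P → Fin 2 => ¬ F2 T (B t) (w t) f ≤ 2 * (ε / d)) ≤
      2 * Real.exp (-s) := by
    intro t
    have h1 := Pool.Agent.Work.MP_db9399_px.helper31.stmt_PBM (J := LJ V P) 2 (F2 T (B t) (w t))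
      (fun y => if y.2 ∈ B t ∧ y.1 ∈ T y.2 then 4 * κ * w t y.1 else 0)
      (16 * κ ^ 2 * (ε ^ 2 / 32 / d)) (ε / d)
      (by norm_num) (lip_F2 T (B t) (w t) (hw0 t) κ (hκ t)) (by
        rw [sum_c2]
        have h2 : vv T (B t) (w t) ≤ ε ^ 2 / 32 / d :=
          (hvv t).trans (div_le_div_of_nonneg_right he1 hdp.le)
        calc (4 * κ) ^ 2 * vv T (B t) (w t) ≤ (4 * κ) ^ 2 * (ε ^ 2 / 32 / d) :=
              mul_le_mul_of_nonneg_left h2 (by positivity)
          _ = _ := by ring) (by positivity) (by positivity)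
    have h2 : -(ε / d) ^ 2 / (2 * (16 * κ ^ 2 * (ε ^ 2 / 32 / d))) = -s := by
      have hκn : κ ≠ 0 := hκ0.ne'
      have e1 : -(ε / d) ^ 2 / (2 * (16 * κ ^ 2 * (ε ^ 2 / 32 / d))) = -(1 / (κ ^ 2 * d)) := by
        field_simp
        norm_num
      rw [e1, neg_inj, div_eq_iff (by positivity)]
      linarith [hκ2]
    rw [h2] at h1
    refine (pr_mono fun f hf => ?_).trans h1
    have h3 := hmean2 t
    rw [not_le] at hf
    have h4 := le_abs_self (F2 T (B t) (w t) f - avg (F2 T (B t) (w t)))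
    linarith
  have hfail : ∀ t, pr (fun f : LJ V P → Fin 2 => ¬ (F1 T (B t) (w t) f ≤ ε ∧
      F2 T (B t) (w t) f ≤ 2 * (ε / d))) ≤ 4 * Real.exp (-s) := by
    intro t
    have h1 : pr (fun f : LJ V P → Fin 2 => ¬ (F1 T (B t) (w t) f ≤ ε ∧
        F2 T (B t) (w t) f ≤ 2 * (ε / d))) ≤
        pr (fun f : LJ V P → Fin 2 => ¬ F1 T (B t) (w t) f ≤ ε) +
        pr (fun f : LJ V P → Fin 2 => ¬ F2 T (B t) (w t) f ≤ 2 * (ε / d)) := by
      rw [← avg_ind, ← avg_ind, ← avg_ind, ← avg_add]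
      refine avg_mono fun f => ?_
      by_cases e1 : F1 T (B t) (w t) f ≤ ε <;> by_cases e2 : F2 T (B t) (w t) f ≤ 2 * (ε / d) <;>
        simp [e1, e2]
    have := hfail1 t
    have := hfail2 t
    linarith
  -- the local lemma
  set U : ℝ := Real.exp (-(3 * L)) with hU
  have hU4 : U ≤ 1 / 4 := by
    have h1 : U ≤ Real.exp (-3) := Real.exp_le_exp.2 (by linarith)
    have h2 : Real.exp (-3) ≤ 1 / 4 := by
      rw [Real.exp_neg, inv_eq_one_div]
      refine one_div_le_one_div_of_le (by norm_num) ?_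
      have := Real.add_one_le_exp (3 : ℝ)
      linarith
    linarith
  have hsx : sx d a = Real.exp L := rfl
  have hQ : ∀ t, U * ((QQ T (B t) (w t)).card : ℝ) ≤ 1 := by
    intro t
    have h1 := QQ_card T (B t) (w t) _ ht1
    have h2 : ((univ.filter fun x => w t x ≠ 0).card : ℝ) ≤ Real.exp L := hsupp t
    have h4 : 1 ≤ Real.exp L := Real.one_le_exp (by linarith)
    have h5 : ((QQ T (B t) (w t)).card : ℝ) ≤ Real.exp L * (Real.exp L * Real.exp L) := by
      refine h1.trans ?_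
      have h6 : (0 : ℝ) ≤ sp d a := by
        unfold sp
        positivity
      calc ((univ.filter fun x => w t x ≠ 0).card : ℝ) * sp d a
          ≤ Real.exp L * Real.exp L := mul_le_mul h2 hsp h6 (Real.exp_pos _).le
        _ ≤ Real.exp L * (Real.exp L * Real.exp L) := by
            refine mul_le_mul_of_nonneg_left ?_ (Real.exp_pos _).le
            nlinarith
    calc U * ((QQ T (B t) (w t)).card : ℝ)
        ≤ U * (Real.exp L * (Real.exp L * Real.exp L)) :=
          mul_le_mul_of_nonneg_left h5 (Real.exp_pos _).le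
      _ = 1 := by
          rw [hU, ← Real.exp_add, ← Real.exp_add, ← Real.exp_add]
          have : -(3 * L) + (L + (L + L)) = 0 := by ring
          rw [this, Real.exp_zero]
  obtain ⟨f, hf⟩ := stmt_LLLI (LJ V P) 2 τ U (fun t => QQ T (B t) (w t))
    (fun _ => 4 * Real.exp (-s) * Real.exp 2)
    (fun t f => F1 T (B t) (w t) f ≤ ε ∧ F2 T (B t) (w t) f ≤ 2 * (ε / d)) (by norm_num)
    (Real.exp_pos _).le hU4 (fun t => pack_single _ _ _ _ (QQ T (B t) (w t))
      (Finset.Subset.refl _)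
      (fun f f' h => by
        have h1 : F1 T (B t) (w t) f = F1 T (B t) (w t) f' := by
          unfold F1
          exact Finset.sum_congr rfl fun b hb => by rw [zz_dep T (B t) (w t) f f' h b hb]
        have h2 : F2 T (B t) (w t) f = F2 T (B t) (w t) f' := by
          unfold F2
          exact Finset.sum_congr rfl fun b hb => by rw [zz_dep T (B t) (w t) f f' h b hb]
        simp only [h1, h2]) (by
        refine mul_le_mul (hfail t) (Real.exp_le_exp.2 ?_) (Real.exp_pos _).le (by positivity)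
        have := hQ t
        linarith) (by positivity) (fun hQ0 f => by
        have h0 : ∀ b ∈ B t, zz T (w t) f b = 0 := by
          intro b hb
          unfold zz
          refine Finset.sum_eq_zero fun x hx => ?_
          by_cases hwx : w t x = 0
          · rw [hwx, zero_mul]
          · have h1 : LJ.mk x b ∈ QQ T (B t) (w t) := mem_filter.2 ⟨mem_univ _, hwx, hb, hx⟩
            rw [hQ0] at h1
            exact absurd h1 (Finset.notMem_empty _)
        have h1 : F1 T (B t) (w t) f = 0 := by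
          unfold F1
          refine Finset.sum_eq_zero fun b hb => ?_
          rw [h0 b hb, abs_zero]
        have h2 : F2 T (B t) (w t) f = 0 := by
          unfold F2
          refine Finset.sum_eq_zero fun b hb => ?_
          rw [h0 b hb]
          ring
        rw [h1, h2]
        exact ⟨hε.le, by positivity⟩)) (fun y => by
      rw [Finset.sum_const, nsmul_eq_mul]
      have h1 : ((univ.filter fun t => y ∈ QQ T (B t) (w t)).card : ℝ) ≤ Real.exp L := by
        refine le_trans ?_ (hmult y.1)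
        exact_mod_cast Finset.card_le_card fun i hi => by
          rw [mem_filter] at hi ⊢
          exact ⟨mem_univ _, (mem_filter.1 hi.2).2.1⟩
      calc ((univ.filter fun t => y ∈ QQ T (B t) (w t)).card : ℝ) *
            (4 * Real.exp (-s) * Real.exp 2)
          ≤ Real.exp L * (Real.exp 3 * Real.exp (-s) * Real.exp 2) := by
            gcongr
            have := Real.add_one_le_exp (3 : ℝ)
            linarith
        _ = Real.exp (L + 5 - s) := by
            rw [← Real.exp_add, ← Real.exp_add, ← Real.exp_add]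
            congr 1
            ring
        _ ≤ U := Real.exp_le_exp.2 (by linarith))
  exact ⟨f, hf⟩

/-- the sum over the labels -/
lemma two_sq (A : Finset V) (l : V → Bool) (p q : V → ℝ) :
    ∑ s : Bool, (∑ x ∈ A.filter (fun x => l x = s), p x -
      ∑ x ∈ A.filter (fun x => l x = !s), q x) ^ 2 ≤
    (∑ x ∈ A, (p x - q x)) ^ 2 +
      (1 / 2) * (∑ x ∈ A, (p x + q x) * (if l x = true then 1 else -1)) ^ 2 := by
  have h1 : ∑ x ∈ A.filter (fun x => l x = true), p x -
      ∑ x ∈ A.filter (fun x => l x = false), q x =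
      (1 / 2) * ∑ x ∈ A, (p x - q x) +
        (1 / 2) * ∑ x ∈ A, (p x + q x) * (if l x = true then 1 else -1) := by
    rw [Finset.sum_filter, Finset.sum_filter, ← Finset.sum_sub_distrib, Finset.mul_sum,
      Finset.mul_sum, ← Finset.sum_add_distrib]
    refine Finset.sum_congr rfl fun x _ => ?_
    cases l x <;> simp <;> ring
  have h2 : ∑ x ∈ A.filter (fun x => l x = false), p x -
      ∑ x ∈ A.filter (fun x => l x = true), q x =
      (1 / 2) * ∑ x ∈ A, (p x - q x) -
        (1 / 2) * ∑ x ∈ A, (p x + q x) * (if l x = true then 1 else -1) := by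
    rw [Finset.sum_filter, Finset.sum_filter, ← Finset.sum_sub_distrib, Finset.mul_sum,
      Finset.mul_sum, ← Finset.sum_sub_distrib]
    refine Finset.sum_congr rfl fun x _ => ?_
    cases l x <;> simp <;> ring
  rw [Fintype.sum_bool]
  simp only [Bool.not_true, Bool.not_false]
  rw [h1, h2]
  set a := ∑ x ∈ A, (p x - q x)
  set b := ∑ x ∈ A, (p x + q x) * (if l x = true then (1 : ℝ) else -1)
  nlinarith [sq_nonneg a]

end labels

section kmset
variable {V I J : Type u} [Fintype V] [Fintype I] [Fintype J] {P : ℕ}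

/-- `x` is exposed to `y` -/
def Rr (G : SimpleGraph V) (S : J → SimpleGraph V) (c : V → Option (Fin P)) (N : Fin P → V → V)
    (x y : V) : Prop :=
  G.Adj x y ∧ ((∃ b, N b x = y ∧ (c x = some b ∨ c y = some b)) ∨
    ((¬ ∃ b, N b x = y) ∧ ¬ ∃ j, (S j).Adj x y))

/-- partner tokens -/
noncomputable def ptk (c : V → Option (Fin P)) (N : Fin P → V → V) (x : V) : Finset (Fin P) :=
  univ.filter fun b => N b x ≠ x ∧ c (N b x) = some b

lemma Rr_symm {G : SimpleGraph V} {S : J → SimpleGraph V} {c : V → Option (Fin P)}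
    {N : Fin P → V → V} (hN : ∀ b v, N b (N b v) = v) {x y : V} (h : Rr G S c N x y) :
    Rr G S c N y x := by
  obtain ⟨h1, h2⟩ := h
  refine ⟨h1.symm, ?_⟩
  rcases h2 with ⟨b, hb, h2⟩ | ⟨h2, h3⟩
  · left
    exact ⟨b, by rw [← hb, hN], h2.symm⟩
  · right
    refine ⟨?_, ?_⟩
    · rintro ⟨b, hb⟩
      exact h2 ⟨b, by rw [← hb, hN]⟩
    · rintro ⟨j, hj⟩
      exact h3 ⟨j, hj.symm⟩

lemma Rr_card {G : SimpleGraph V} {S : J → SimpleGraph V} {c : V → Option (Fin P)}
    {N : Fin P → V → V} (K : Finset V) (C : ℝ) (x : V)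
    (hC : (((nb G x).filter fun w => (¬ ∃ b, N b x = w) ∧ ¬ ∃ j, (S j).Adj x w).card : ℝ) ≤ C) :
    ((K.filter (Rr G S c N x)).card : ℝ) ≤ 1 + (ptk c N x).card + C := by
  have h1 : K.filter (Rr G S c N x) ⊆
      (((univ.filter fun b => c x = some b).image fun b => N b x) ∪
        ((ptk c N x).image fun b => N b x)) ∪
        (nb G x).filter fun w => (¬ ∃ b, N b x = w) ∧ ¬ ∃ j, (S j).Adj x w := by
    intro y hy
    obtain ⟨_, hG, h2⟩ := mem_filter.1 hy
    rw [mem_union, mem_union, mem_image, mem_image]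
    rcases h2 with ⟨b, hb, h3⟩ | h2
    · left
      by_cases hb2 : c x = some b
      · left
        exact ⟨b, mem_filter.2 ⟨mem_univ _, hb2⟩, hb⟩
      · right
        refine ⟨b, mem_filter.2 ⟨mem_univ _, ?_, ?_⟩, hb⟩
        · rw [hb]
          exact hG.ne'
        · rw [hb]
          exact h3.resolve_left hb2
    · right
      refine mem_filter.2 ⟨?_, h2⟩
      unfold nb
      exact mem_filter.2 ⟨mem_univ _, hG⟩
  have h2 : (univ.filter fun b => c x = some b).card ≤ 1 := by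
    rw [card_le_one]
    intro b hb b' hb'
    rw [mem_filter] at hb hb'
    have := hb.2.symm.trans hb'.2
    exact Option.some.inj this
  have h3 := (card_le_card h1).trans (card_union_le _ _)
  have h4 := card_union_le ((univ.filter fun b => c x = some b).image fun b => N b x)
    ((ptk c N x).image fun b => N b x)
  have h5 := card_image_le (s := univ.filter fun b => c x = some b) (f := fun b => N b x)
  have h6 := card_image_le (s := ptk c N x) (f := fun b => N b x)
  have h7 : (K.filter (Rr G S c N x)).card ≤ 1 + (ptk c N x).card +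
      ((nb G x).filter fun w => (¬ ∃ b, N b x = w) ∧ ¬ ∃ j, (S j).Adj x w).card := by omega
  have h8 : ((K.filter (Rr G S c N x)).card : ℝ) ≤ 1 + (ptk c N x).card +
      (((nb G x).filter fun w => (¬ ∃ b, N b x = w) ∧ ¬ ∃ j, (S j).Adj x w).card : ℝ) := by
    exact_mod_cast h7
  linarith

end kmset

lemma asymC (a C : ℝ) (ha : 0 < a) (ha1 : a ≤ 1 / 100) (hC : 1 ≤ C) :
    ∃ d0 : ℕ, 1 ≤ d0 ∧ ∀ d : ℕ, d0 ≤ d → 2 + C + (d : ℝ) ^ (a / 10) ≤ (d : ℝ) ^ (1 / 20 : ℝ) ∧
      520 * (d : ℝ) ^ (9 / 10 : ℝ) ≤ (d : ℝ) ^ (1 - a) := by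
  have h1 := (tendsto_rpow_atTop (show (0 : ℝ) < 1 / 40 by norm_num)).eventually_ge_atTop
    (3 + C)
  have h2 := (tendsto_rpow_atTop (show (0 : ℝ) < 9 / 100 by norm_num)).eventually_ge_atTop 520
  have h3 := (h1.and h2).and (Filter.eventually_ge_atTop (1 : ℝ))
  obtain ⟨x0, hx0⟩ := Filter.eventually_atTop.1 h3
  refine ⟨max 1 ⌈x0⌉₊, le_max_left _ _, fun d hd => ?_⟩
  have h4 : x0 ≤ d := (Nat.le_ceil _).trans (by exact_mod_cast (le_max_right _ _).trans hd)
  obtain ⟨⟨h5, h6⟩, h7⟩ := hx0 d h4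
  have hdp : (0 : ℝ) < d := by linarith
  constructor
  · have e1 : (d : ℝ) ^ (a / 10) ≤ (d : ℝ) ^ (1 / 40 : ℝ) :=
      Real.rpow_le_rpow_of_exponent_le h7 (by linarith)
    have e2 : (d : ℝ) ^ (1 / 20 : ℝ) = (d : ℝ) ^ (1 / 40 : ℝ) * (d : ℝ) ^ (1 / 40 : ℝ) := by
      rw [← Real.rpow_add hdp]
      norm_num
    rw [e2]
    nlinarith
  · have e1 : (d : ℝ) ^ (9 / 10 + 9 / 100 : ℝ) ≤ (d : ℝ) ^ (1 - a) :=
      Real.rpow_le_rpow_of_exponent_le h7 (by linarith)
    rw [Real.rpow_add hdp] at e1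
    have e2 : (0 : ℝ) < (d : ℝ) ^ (9 / 10 : ℝ) := Real.rpow_pos_of_pos hdp _
    nlinarith

end KMLN

section kernel
open Pool.Agent.Work.MP_db9399_en (HH)
variable {V : Type u} [Fintype V]

lemma HH_iter_sum (S : SimpleGraph V) (r j : ℕ) (T : Finset V) (f : V → V → ℝ) :
    (HH S r)^[j] (fun y => ∑ x ∈ T, f x y) = fun y => ∑ x ∈ T, (HH S r)^[j] (f x) y := by
  induction j with
  | zero => rfl
  | succ j ih =>
    rw [Function.iterate_succ_apply', ih]
    funext y
    simp only [Function.iterate_succ_apply']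
    unfold HH
    rw [Finset.sum_comm, Finset.sum_div]

lemma HH_iter_le (S : SimpleGraph V) (r : ℕ) (hr : 0 < r) (hS : ∀ v, (nb S v).card ≤ r + 2)
    (g : V → ℝ) (c : ℝ) (hc : 0 ≤ c) (hg : ∀ v, g v ≤ c) (j : ℕ) :
    ∀ v, (HH S r)^[j] g v ≤ (1 + 2 / (r : ℝ)) ^ j * c := by
  have hr' : (0 : ℝ) < r := by exact_mod_cast hr
  induction j with
  | zero => intro v; simpa using hg v
  | succ j ih =>
    intro v
    rw [Function.iterate_succ_apply']
    have h1 : HH S r ((HH S r)^[j] g) v = (∑ w ∈ nb S v, (HH S r)^[j] g w) / r := rfl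
    rw [h1, div_le_iff₀ hr']
    have h2 : ∑ w ∈ nb S v, (HH S r)^[j] g w ≤ ((nb S v).card : ℝ) * ((1 + 2 / (r : ℝ)) ^ j * c) := by
      rw [← nsmul_eq_mul]
      exact Finset.sum_le_card_nsmul _ _ _ fun w _ => ih w
    have h3 : ((nb S v).card : ℝ) ≤ r + 2 := by exact_mod_cast hS v
    refine h2.trans ((mul_le_mul_of_nonneg_right h3 (by positivity)).trans (le_of_eq ?_))
    have h4 : (r : ℝ) + 2 = (1 + 2 / (r : ℝ)) * r := by
      field_simp
    rw [h4, pow_succ]
    ring

/-- few tokens in every neighbourhood: small mass of the tokens in the kernels -/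
theorem pk_tok (S : SimpleGraph V) (r j : ℕ) (T : Finset V) (m : ℝ) (hr : 0 < r) (hm : 0 ≤ m)
    (hS : ∀ v, (nb S v).card ≤ r + 2) (hT : ∀ y, ((nb S y ∩ T).card : ℝ) ≤ m) (v : V) :
    ∑ x ∈ T, pk S r (j + 1) v x ≤ (1 + 2 / (r : ℝ)) ^ j * (m / r) := by
  have hr' : (0 : ℝ) < r := by exact_mod_cast hr
  have h1 : ∑ x ∈ T, pk S r (j + 1) v x =
      (HH S r)^[j + 1] (fun y => ∑ x ∈ T, if y = x then (1 : ℝ) else 0) v := by
    rw [HH_iter_sum S r (j + 1) T (fun x y => if y = x then (1 : ℝ) else 0)]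
    rfl
  rw [h1, Function.iterate_succ_apply]
  refine HH_iter_le S r hr hS _ (m / r) (by positivity) (fun y => ?_) j v
  have h2 : HH S r (fun y => ∑ x ∈ T, if y = x then (1 : ℝ) else 0) y =
      (∑ w ∈ nb S y, ∑ x ∈ T, if w = x then (1 : ℝ) else 0) / r := rfl
  rw [h2]
  refine div_le_div_of_nonneg_right ?_ hr'.le
  refine le_trans (le_of_eq ?_) (hT y)
  simp_rw [Finset.sum_ite_eq]
  rw [Finset.sum_ite_mem, Finset.sum_const, nsmul_eq_mul, mul_one]

/-- the same for the averaged kernels -/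
theorem k01_tok (S : SimpleGraph V) (r L : ℕ) (T : Finset V) (m : ℝ) (hr : 0 < r) (hL : 1 ≤ L)
    (hm : 0 ≤ m) (hS : ∀ v, (nb S v).card ≤ r + 2) (hT : ∀ y, ((nb S y ∩ T).card : ℝ) ≤ m)
    (v : V) : ∑ x ∈ T, (k0 S r L v x + k1 S r L v x) ≤
      2 * (1 + 2 / (r : ℝ)) ^ (4 * L) * (m / r) := by
  have hL' : (0 : ℝ) < L := by exact_mod_cast hL
  have hr' : (0 : ℝ) < r := by exact_mod_cast hr
  have hb : (1 : ℝ) ≤ 1 + 2 / (r : ℝ) := by
    have : 0 < 2 / (r : ℝ) := by positivity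
    linarith
  set X := (1 + 2 / (r : ℝ)) ^ (4 * L) * (m / r) with hX
  have h0 : ∀ n, 1 ≤ n → n ≤ 4 * L → ∑ x ∈ T, pk S r n v x ≤ X := by
    intro n hn1 hn2
    obtain ⟨j, rfl⟩ : ∃ j, n = j + 1 := ⟨n - 1, by omega⟩
    refine (pk_tok S r j T m hr hm hS hT v).trans ?_
    exact mul_le_mul_of_nonneg_right (pow_le_pow_right₀ hb (by omega)) (by positivity)
  have h1 : ∑ x ∈ T, (k0 S r L v x + k1 S r L v x) =
      (∑ l ∈ Ico L (2 * L), (∑ x ∈ T, pk S r (2 * l) v x + ∑ x ∈ T, pk S r (2 * l - 1) v x)) / L := by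
    unfold k0 k1
    rw [Finset.sum_add_distrib, ← Finset.sum_div, ← Finset.sum_div, Finset.sum_comm,
      ← add_div, Finset.sum_comm (s := T) (t := Ico L (2 * L)), Finset.sum_add_distrib]
  rw [h1, div_le_iff₀ hL']
  have h2 : ∑ l ∈ Ico L (2 * L), (∑ x ∈ T, pk S r (2 * l) v x + ∑ x ∈ T, pk S r (2 * l - 1) v x) ≤
      ((Ico L (2 * L)).card : ℝ) * (2 * X) := by
    rw [← nsmul_eq_mul]
    refine Finset.sum_le_card_nsmul _ _ _ fun l hl => ?_
    obtain ⟨e1, e2⟩ := mem_Ico.1 hl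
    have := h0 (2 * l) (by omega) (by omega)
    have := h0 (2 * l - 1) (by omega) (by omega)
    linarith
  rw [Nat.card_Ico] at h2
  have h3 : ((2 * L - L : ℕ) : ℝ) = L := by
    congr 1
    omega
  rw [h3] at h2
  refine h2.trans (le_of_eq ?_)
  rw [hX]
  ring

end kernel

open KMLN in
/-- BLOCK KMLN -/
theorem stmt_KMLN : Stmt_KMLN.{u} := by
  intro a C ha ha1 hC
  set B : ℝ := 2081 + C with hBdef
  have hB1 : 1 ≤ B := by linarith
  refine ⟨1 / (6240 * B), by positivity, ?_, ?_⟩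
  · rw [div_le_one (by positivity)]
    linarith
  intro ε hε
  obtain ⟨d1, h1⟩ := headsG.{u} B C hB1 hC
  obtain ⟨e, d2, he, h2⟩ := labelsG.{u} a ε ha ha1 hε
  obtain ⟨d3, hd3, h3⟩ := asymC a C ha ha1 hC
  refine ⟨e, max (max d1 d2) d3, he, ?_⟩
  intro V I J τ _ _ _ _ P G S cl O A nn d K0 T0 r jt p q N c K hd hN hO hJ hG hr hK hrest hK4 hK5
    hp hq hT hm2 hloc
  have hd1 : d1 ≤ d := (le_max_left _ _).trans ((le_max_left _ _).trans hd)
  have hd2 : d2 ≤ d := (le_max_right _ _).trans ((le_max_left _ _).trans hd)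
  have hd3' : d3 ≤ d := (le_max_right _ _).trans hd
  obtain ⟨hsm, h520⟩ := h3 d hd3'
  have hdr : (1 : ℝ) ≤ d := by exact_mod_cast hd3.trans hd3'
  have hdp : (0 : ℝ) < d := by linarith
  -- the exposures
  set K' : Finset V := K ∩ O with hK'
  set Ex : V → Finset V := fun x => K'.filter (Rr G S c N x) with hEx
  have hptk : ∀ x ∈ O, ((ptk c N x).card : ℝ) ≤ sp d a := by
    intro x hx
    refine le_trans ?_ (hO.t1 x)
    exact_mod_cast card_le_card fun b hb => by
      obtain ⟨_, hb1, hb2⟩ := mem_filter.1 hb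
      refine mem_filter.2 ⟨mem_univ _, ?_⟩
      unfold tkN
      refine mem_filter.2 ⟨hx, ?_, Or.inr hb2⟩
      have h4 := hN.cp (N b x) x (hN.mts.NG b x hb1).symm (by rw [hb2]; simp)
      intro h5
      exact h4 (by rw [hb2, h5])
  have hExq : Exq Ex K' (2 + C + (d : ℝ) ^ (a / 10)) := by
    refine ⟨fun x => filter_subset _ _, fun x hx => ?_, fun x hx y hy => ?_, fun x hx => ?_⟩
    · exact (mem_filter.1 hx).2.1.ne rfl
    · obtain ⟨hyK, hxy⟩ := mem_filter.1 hy
      exact mem_filter.2 ⟨hx, Rr_symm hN.mts.NN hxy⟩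
    · have h4 := Rr_card (c := c) K' C x (hrest x)
      have h5 := hptk x (mem_inter.1 hx).2
      have h6 : sp d a = (d : ℝ) ^ (a / 10) := rfl
      rw [h6] at h5
      have h7 : ((Ex x).card : ℝ) ≤ 1 + (ptk c N x).card + C := h4
      linarith
  -- the tests
  have htest : ∃ Km : Finset V, Km ⊆ K' ∧ (∀ v ∈ Km, ∀ w ∈ Km, w ∉ Ex v) ∧
      ∀ j, ∀ v ∈ A j, v ∉ K →
        ((((nb (S j) v).filter fun w => w ∉ O).card : ℝ) < (r j : ℝ) / 260) →
        (r j : ℝ) / (6240 * B) ≤ (((nb (S j) v).filter fun w => w ∈ Km).card : ℝ) := by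
    let ι : Type u := {i : V × J // i.1 ∈ A i.2 ∧ i.1 ∉ K ∧
      (((nb (S i.2) i.1).filter fun w => w ∉ O).card : ℝ) < (r i.2 : ℝ) / 260}
    have : Fintype ι := Subtype.fintype _
    set Av : ι → Finset V := fun i => (nb (S i.1.2) i.1.1 ∩ K').filter
      fun x => ((ptk c N x).card : ℝ) ≤ 2080 with hAv
    have hAS : ∀ i, Av i ⊆ nb (S i.1.2) i.1.1 := fun i x hx =>
      (mem_inter.1 (mem_filter.1 hx).1).1
    have hlow : ∀ i : ι, (r i.1.2 : ℝ) / 520 ≤ ((Av i).card : ℝ) := by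
      rintro ⟨⟨v, j⟩, hvA, hvK, hvO⟩
      simp only at hvA hvK hvO ⊢
      have e1 := hK4 j v hvA hvK
      set Bd := (nb (S j) v).filter fun x => (2080 : ℝ) < ((ptk c N x).card : ℝ) with hBd
      have e2 : ((nb (S j) v ∩ K).card : ℝ) ≤ (((nb (S j) v).filter fun w => w ∉ O).card : ℝ) +
          ((Av ⟨(v, j), hvA, hvK, hvO⟩).card : ℝ) + Bd.card := by
        have e3 : nb (S j) v ∩ K ⊆ (((nb (S j) v).filter fun w => w ∉ O) ∪
            Av ⟨(v, j), hvA, hvK, hvO⟩) ∪ Bd := by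
          intro x hx
          obtain ⟨hx1, hx2⟩ := mem_inter.1 hx
          rw [mem_union, mem_union]
          by_cases hxO : x ∈ O
          · by_cases hxp : ((ptk c N x).card : ℝ) ≤ 2080
            · left; right
              exact mem_filter.2 ⟨mem_inter.2 ⟨hx1, mem_inter.2 ⟨hx2, hxO⟩⟩, hxp⟩
            · right
              exact mem_filter.2 ⟨hx1, not_le.1 hxp⟩
          · left; left
            exact mem_filter.2 ⟨hx1, hxO⟩
        have e4 := card_le_card e3
        have e5 := card_union_le (((nb (S j) v).filter fun w => w ∉ O) ∪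
            Av ⟨(v, j), hvA, hvK, hvO⟩) Bd
        have e6 := card_union_le ((nb (S j) v).filter fun w => w ∉ O)
            (Av ⟨(v, j), hvA, hvK, hvO⟩)
        have e7 : (nb (S j) v ∩ K).card ≤ ((nb (S j) v).filter fun w => w ∉ O).card +
          (Av ⟨(v, j), hvA, hvK, hvO⟩).card + Bd.card := by omega
        exact_mod_cast e7
      have e3 : (Bd.card : ℝ) * 2080 ≤ 4 * r j := by
        refine le_trans ?_ (hO.av j v)
        rw [← nsmul_eq_mul]
        refine (Finset.card_nsmul_le_sum Bd _ _ fun x hx => (mem_filter.1 hx).2.le).trans ?_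
        exact Finset.sum_le_sum_of_subset_of_nonneg (filter_subset _ _)
          fun x _ _ => by positivity
      linarith
    obtain ⟨Km, a1, a2, a3⟩ := h1 (ι := ι) Ex K' (2 + C + (d : ℝ) ^ (a / 10)) d Av hd1 hExq
      (by
        have : (0 : ℝ) ≤ (d : ℝ) ^ (a / 10) := by positivity
        linarith)
      (by
        have e1 : (0 : ℝ) ≤ 2 + C + (d : ℝ) ^ (a / 10) := by positivity
        calc (2 + C + (d : ℝ) ^ (a / 10)) ^ 3 ≤ ((d : ℝ) ^ (1 / 20 : ℝ)) ^ 3 :=
              pow_le_pow_left₀ e1 hsm 3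
          _ = (d : ℝ) ^ (3 / 20 : ℝ) := by
              rw [← Real.rpow_natCast, ← Real.rpow_mul hdp.le]
              norm_num)
      (fun i x hx => (mem_inter.1 (mem_filter.1 hx).1).2)
      (fun i x hx => by
        have e1 := Rr_card (c := c) K' C x (hrest x)
        have e2 := (mem_filter.1 hx).2
        have e3 : ((Ex x).card : ℝ) ≤ 1 + (ptk c N x).card + C := e1
        linarith)
      (fun i => by
        refine le_trans ?_ (hlow i)
        have := hr i.1.2
        linarith)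
      (fun i => by
        refine le_trans ?_ (hG i.1.1)
        exact_mod_cast card_le_card ((hAS i).trans fun w hw => by
          unfold nb at hw ⊢
          rw [mem_filter] at hw ⊢
          exact ⟨hw.1, hN.SG i.1.2 hw.2⟩))
      (fun x => by
        have e1 : ((univ.filter fun i : ι => x ∈ Av i).card : ℝ) ≤
            (((univ : Finset J) ×ˢ nb G x).card : ℝ) := by
          have e2 : (univ.filter fun i : ι => x ∈ Av i).card ≤
              ((univ : Finset J) ×ˢ nb G x).card := by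
            refine Finset.card_le_card_of_injOn (fun i => (i.1.2, i.1.1)) ?_ ?_
            · intro i hi
              rw [Finset.mem_coe, mem_filter] at hi
              have e3 := hAS i hi.2
              rw [Finset.mem_coe, mem_product]
              refine ⟨mem_univ _, ?_⟩
              unfold nb at e3 ⊢
              rw [mem_filter] at e3 ⊢
              exact ⟨mem_univ _, (hN.SG i.1.2 e3.2).symm⟩
            · intro i _ i' _ h
              simp only [Prod.mk.injEq] at h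
              exact Subtype.ext (Prod.ext h.2 h.1)
          exact_mod_cast e2
        refine e1.trans ?_
        rw [card_product, card_univ, Nat.cast_mul]
        calc (Fintype.card J : ℝ) * ((nb G x).card : ℝ) ≤ C * (C * d) := by
              refine mul_le_mul hJ (hG x) (by positivity) (by positivity)
          _ = C ^ 2 * d := by ring)
    refine ⟨Km, a1, a2, ?_⟩
    intro j v hvA hvK hvO
    have e1 := a3 ⟨(v, j), hvA, hvK, hvO⟩
    have e2 := hlow ⟨(v, j), hvA, hvK, hvO⟩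
    simp only at e2
    have e3 : ((Av ⟨(v, j), hvA, hvK, hvO⟩ ∩ Km).card : ℝ) ≤
        (((nb (S j) v).filter fun w => w ∈ Km).card : ℝ) := by
      exact_mod_cast card_le_card fun x hx => by
        obtain ⟨e4, e5⟩ := mem_inter.1 hx
        exact mem_filter.2 ⟨hAS _ e4, e5⟩
    refine le_trans ?_ (e1.trans e3)
    calc (r j : ℝ) / (6240 * B) = 1 / (12 * B) * ((r j : ℝ) / 520) := by
          field_simp
          ring
      _ ≤ _ := mul_le_mul_of_nonneg_left e2 (by positivity)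
  obtain ⟨Km, k1, k2, k3⟩ := htest
  -- the labels
  have hvv : ∀ t, vv (tkN O c N) (univ.filter fun b => cl b = jt t) (fun x => p t x + q t x) ≤
      e / d := by
    intro t
    rw [vv_eq]
    refine le_trans (le_of_eq ?_) (hm2 t)
    refine Finset.sum_congr rfl fun x _ => ?_
    rw [Finset.filter_filter]
  obtain ⟨f, hf⟩ := h2 d P (tkN O c N) (fun t => univ.filter fun b => cl b = jt t)
    (fun t x => p t x + q t x) hd2 hN.Pd hO.t1 (fun t x => add_nonneg (hp t x) (hq t x))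
    hT.supp hT.mult hvv (fun t b hb => hloc t b (mem_filter.1 hb).2)
  refine ⟨Km, fun b x => decide (f (LJ.mk x b) = 0), ⟨hK, fun x hx => (mem_inter.1 (k1 hx)).1,
    fun x hx => (mem_inter.1 (k1 hx)).2, ?_, ?_, hK5⟩, ?_, ?_⟩
  · -- K3
    intro v hv w hw hvw
    have hn := k2 v hv w hw
    have hS : ¬ ∃ j, (S j).Adj v w := by
      rintro ⟨j, hj⟩
      exact hK j v (mem_inter.1 (k1 hv)).1 w (mem_inter.1 (k1 hw)).1 hj
    have hex : ∃ b, N b v = w := by
      by_contra hcon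
      exact hn (mem_filter.2 ⟨k1 hw, hvw, Or.inr ⟨hcon, hS⟩⟩)
    obtain ⟨b, hb⟩ := hex
    refine ⟨b, hb, ?_⟩
    by_contra hcon
    have h4 : c v = some b ∨ c w = some b := by
      by_contra h5
      rw [not_or] at h5
      exact hcon h5
    exact hn (mem_filter.2 ⟨k1 hw, hvw, Or.inl ⟨b, hb, h4⟩⟩)
  · -- K4
    intro j v hvA hvK
    have hr0 : (0 : ℝ) ≤ r j := Nat.cast_nonneg _
    by_cases hvO : (((nb (S j) v).filter fun w => w ∉ O).card : ℝ) < (r j : ℝ) / 260
    · have h4 := k3 j v hvA hvK hvO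
      have h5 : (((nb (S j) v).filter fun w => w ∈ Km).card : ℝ) ≤
          (((nb (S j) v).filter fun w => w ∈ Km ∨ w ∉ O).card : ℝ) := by
        exact_mod_cast card_le_card fun x hx => by
          rw [mem_filter] at hx ⊢
          exact ⟨hx.1, Or.inl hx.2⟩
      calc 1 / (6240 * B) * (r j : ℝ) = (r j : ℝ) / (6240 * B) := by ring
        _ ≤ _ := h4.trans h5
    · rw [not_lt] at hvO
      have h5 : (((nb (S j) v).filter fun w => w ∉ O).card : ℝ) ≤
          (((nb (S j) v).filter fun w => w ∈ Km ∨ w ∉ O).card : ℝ) := by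
        exact_mod_cast card_le_card fun x hx => by
          rw [mem_filter] at hx ⊢
          exact ⟨hx.1, Or.inr hx.2⟩
      refine le_trans ?_ (hvO.trans h5)
      have h6 : 1 / (6240 * B) ≤ 1 / 260 := one_div_le_one_div_of_le (by norm_num) (by linarith)
      calc 1 / (6240 * B) * (r j : ℝ) ≤ 1 / 260 * (r j : ℝ) :=
            mul_le_mul_of_nonneg_right h6 hr0
        _ = _ := by ring
  · intro t
    have h4 : ∀ b, ∑ s : Bool,
        |∑ x ∈ tksN O c N (fun b x => decide (f (LJ.mk x b) = 0)) b s, p t x -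
        ∑ x ∈ tksN O c N (fun b x => decide (f (LJ.mk x b) = 0)) b (!s), q t x| ≤
        |∑ x ∈ tkN O c N b, (p t x - q t x)| +
          |zz (tkN O c N) (fun x => p t x + q t x) f b| := by
      intro b
      have h5 := Pool.Agent.Work.MP_db9399_cg.helper54.KML.two_sides (tkN O c N b)
        (fun x => decide (f (LJ.mk x b) = 0)) (p t) (q t)
      have h6 : ∀ x, (if decide (f (LJ.mk x b) = 0) = true then (1 : ℝ) else -1) =
          sg f (LJ.mk x b) := by
        intro x
        unfold sg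
        by_cases hx : f (LJ.mk x b) = 0 <;> simp [hx]
      simp only [h6] at h5
      exact h5
    refine (Finset.sum_le_sum fun b _ => h4 b).trans ?_
    rw [Finset.sum_add_distrib]
    have := (hf t).1
    unfold F1 at this
    linarith
  · intro t
    have h4 : ∀ b, ∑ s : Bool,
        (∑ x ∈ tksN O c N (fun b x => decide (f (LJ.mk x b) = 0)) b s, p t x -
        ∑ x ∈ tksN O c N (fun b x => decide (f (LJ.mk x b) = 0)) b (!s), q t x) ^ 2 ≤
        (∑ x ∈ tkN O c N b, (p t x - q t x)) ^ 2 +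
          (1 / 2) * zz (tkN O c N) (fun x => p t x + q t x) f b ^ 2 := by
      intro b
      have h5 := two_sq (tkN O c N b) (fun x => decide (f (LJ.mk x b) = 0)) (p t) (q t)
      have h6 : ∀ x, (if decide (f (LJ.mk x b) = 0) = true then (1 : ℝ) else -1) =
          sg f (LJ.mk x b) := by
        intro x
        unfold sg
        by_cases hx : f (LJ.mk x b) = 0 <;> simp [hx]
      simp only [h6] at h5
      exact h5
    refine (Finset.sum_le_sum fun b _ => h4 b).trans ?_
    rw [Finset.sum_add_distrib, ← Finset.mul_sum]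
    have := (hf t).2
    unfold F2 at this
    linarith

end Pool.Agent.Work.MP_db9399_sg.helper54
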